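import Pool.Agent.W716.FV.StmA

/-!
# Project FV: moments of the Gaussian measure
-/

set_option autoImplicit false

open MeasureTheory

namespace Pool.Agent.W933.FVGM

open Pool.Agent.W716.FV

theorem gd_nonneg (n : ℕ) (x : E n) : 0 ≤ gd n x := by
  unfold gd
  positivity

theorem continuous_gd (n : ℕ) : Continuous (gd n) := by
  unfold gd
  fun_prop

theorem meas_ofReal_gd (n : ℕ) : Measurable (fun x : E n => ENNReal.ofReal (gd n x)) :=
  (continuous_gd n).measurable.ennreal_ofReal

theorem int_gam {n : ℕ} (f : E n → ℝ) : ∫ x, f x ∂(gam n) = ∫ x, gd n x * f x := by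
  unfold gam
  rw [integral_withDensity_eq_integral_toReal_smul (meas_ofReal_gd n)
    (Filter.Eventually.of_forall fun x => ENNReal.ofReal_lt_top)]
  refine integral_congr_ae (Filter.Eventually.of_forall fun x => ?_)
  simp only [ENNReal.toReal_ofReal (gd_nonneg n x), smul_eq_mul]

theorem integrable_gam {n : ℕ} (f : E n → ℝ) :
    Integrable f (gam n) ↔ Integrable (fun x => gd n x * f x) := by
  unfold gam
  rw [integrable_withDensity_iff_integrable_smul' (meas_ofReal_gd n)
    (Filter.Eventually.of_forall fun x => ENNReal.ofReal_lt_top)]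
  refine integrable_congr (Filter.Eventually.of_forall fun x => ?_)
  simp only [ENNReal.toReal_ofReal (gd_nonneg n x), smul_eq_mul]

theorem integral_gauss (n : ℕ) {b : ℝ} (hb : 0 < b) :
    ∫ x : E n, Real.exp (-b * ‖x‖ ^ 2) = (Real.pi / b) ^ ((n : ℝ) / 2) := by
  rw [GaussianFourier.integral_rexp_neg_mul_sq_norm hb]
  simp

theorem integrable_gauss (n : ℕ) {b : ℝ} (hb : 0 < b) :
    Integrable (fun x : E n => Real.exp (-b * ‖x‖ ^ 2)) := by
  apply Integrable.of_integral_ne_zero
  rw [integral_gauss n hb]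
  have := Real.pi_pos
  positivity

theorem integral_gd (n : ℕ) : ∫ x : E n, gd n x = 1 := by
  unfold gd
  rw [integral_const_mul]
  have h1 : ∀ x : E n, Real.exp (-‖x‖ ^ 2 / 2) = Real.exp (-(1 / 2) * ‖x‖ ^ 2) := by
    intro x
    congr 1
    ring
  simp_rw [h1]
  rw [integral_gauss n (by norm_num)]
  have hpi := Real.pi_pos
  have h2 : Real.pi / (1 / 2) = (√(2 * Real.pi)) ^ 2 := by
    rw [Real.sq_sqrt (by positivity)]
    ring
  rw [h2, ← Real.rpow_natCast (√(2 * Real.pi)) 2, ← Real.rpow_mul (by positivity)]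
  have h3 : ((2 : ℕ) : ℝ) * ((n : ℝ) / 2) = n := by push_cast; ring
  rw [h3, Real.rpow_natCast, inv_pow, inv_mul_cancel₀]
  positivity

theorem pow_bound (k : ℕ) (t : ℝ) (ht : 0 ≤ t) :
    t ^ k * Real.exp (-t ^ 2 / 2) ≤ (1 + 4 ^ k * k.factorial) * Real.exp (-(1 / 4) * t ^ 2) := by
  have h1 := Real.pow_div_factorial_le_exp (t ^ 2 / 4) (by positivity) k
  have h2 : t ^ k ≤ 1 + t ^ (2 * k) := by
    have h3 : 0 ≤ (t ^ k - 1) ^ 2 := sq_nonneg _
    have h4 : t ^ (2 * k) = (t ^ k) ^ 2 := by rw [← pow_mul, mul_comm]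
    have h5 : 0 ≤ t ^ k := by positivity
    rw [h4]
    nlinarith
  have h6 : t ^ (2 * k) ≤ 4 ^ k * k.factorial * Real.exp (t ^ 2 / 4) := by
    have h7 : t ^ (2 * k) = 4 ^ k * k.factorial * ((t ^ 2 / 4) ^ k / k.factorial) := by
      rw [div_pow, pow_mul]
      field_simp
    rw [h7]
    exact mul_le_mul_of_nonneg_left h1 (by positivity)
  have h8 : 1 ≤ Real.exp (t ^ 2 / 4) := Real.one_le_exp (by positivity)
  have h9 : t ^ k ≤ (1 + 4 ^ k * k.factorial) * Real.exp (t ^ 2 / 4) := by
    have : (1 + 4 ^ k * (k.factorial : ℝ)) * Real.exp (t ^ 2 / 4) =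
        Real.exp (t ^ 2 / 4) + 4 ^ k * k.factorial * Real.exp (t ^ 2 / 4) := by ring
    linarith
  have h10 : Real.exp (-(1 / 4) * t ^ 2) = Real.exp (t ^ 2 / 4) * Real.exp (-t ^ 2 / 2) := by
    rw [← Real.exp_add]
    congr 1
    ring
  rw [h10, ← mul_assoc]
  exact mul_le_mul_of_nonneg_right h9 (Real.exp_nonneg _)

theorem integrable_mom {n : ℕ} (k : ℕ) (f : E n → ℝ) (hf : AEStronglyMeasurable f volume) (C : ℝ)
    (hC : ∀ x, |f x| ≤ C * ‖x‖ ^ k) : Integrable (fun x : E n => gd n x * f x) := by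
  have h0 : 0 ≤ (√(2 * Real.pi))⁻¹ ^ n := by positivity
  refine Integrable.mono' (g := fun x => (√(2 * Real.pi))⁻¹ ^ n * (|C| *
    ((1 + 4 ^ k * k.factorial) * Real.exp (-(1 / 4) * ‖x‖ ^ 2)))) ?_
    ((continuous_gd n).aestronglyMeasurable.mul hf) (Filter.Eventually.of_forall fun x => ?_)
  · exact ((integrable_gauss n (by norm_num)).const_mul _).const_mul _ |>.const_mul _
  · rw [Real.norm_eq_abs, abs_mul, abs_of_nonneg (gd_nonneg n x)]
    unfold gd
    rw [mul_assoc]
    refine mul_le_mul_of_nonneg_left ?_ h0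
    calc Real.exp (-‖x‖ ^ 2 / 2) * |f x| ≤ Real.exp (-‖x‖ ^ 2 / 2) * (|C| * ‖x‖ ^ k) := by
          apply mul_le_mul_of_nonneg_left _ (Real.exp_nonneg _)
          refine (hC x).trans (mul_le_mul_of_nonneg_right (le_abs_self C) (by positivity))
      _ = |C| * (‖x‖ ^ k * Real.exp (-‖x‖ ^ 2 / 2)) := by ring
      _ ≤ _ := mul_le_mul_of_nonneg_left (pow_bound k ‖x‖ (norm_nonneg x)) (abs_nonneg C)

theorem hasFDerivAt_gd (n : ℕ) (x : E n) :
    HasFDerivAt (gd n) (-(gd n x) • innerSL ℝ x) x := by
  unfold gd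
  have h1 : HasFDerivAt (fun y : E n => ‖y‖ ^ 2) (2 • innerSL ℝ x) x :=
    (hasStrictFDerivAt_norm_sq x).hasFDerivAt
  have h2 : HasFDerivAt (fun y : E n => -‖y‖ ^ 2 / 2) (-(innerSL ℝ x)) x := by
    have h3 := h1.const_mul (-(1 / 2 : ℝ))
    refine (h3.congr_fderiv ?_).congr_of_eventuallyEq
      (Filter.Eventually.of_forall fun y => by ring)
    ext v
    simp
  have h4 := (h2.exp).const_mul ((√(2 * Real.pi))⁻¹ ^ n)
  refine h4.congr_fderiv ?_
  ext v
  simp
  ring

theorem fderiv_gd (n : ℕ) (x v : E n) : fderiv ℝ (gd n) x v = -(gd n x * inner ℝ x v) := by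
  rw [(hasFDerivAt_gd n x).fderiv]
  simp

theorem main : GaussMoments := by
  intro n
  have hg : ∫ x : E n, gd n x = 1 := integral_gd n
  have hgi : Integrable (gd n) := Integrable.of_integral_ne_zero (by rw [hg]; norm_num)
  have hprob : IsProbabilityMeasure (gam n) := by
    refine ⟨?_⟩
    unfold gam
    rw [withDensity_apply _ MeasurableSet.univ, Measure.restrict_univ,
      ← ofReal_integral_eq_lintegral_ofReal hgi
        (Filter.Eventually.of_forall fun x => gd_nonneg n x), hg, ENNReal.ofReal_one]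
  have hsec : ∀ v w : E n, ∫ x, (inner ℝ x v : ℝ) * inner ℝ x w ∂(gam n) = inner ℝ v w := by
    intro v w
    have hf : ∀ x : E n, HasFDerivAt (fun x : E n => (inner ℝ x w : ℝ)) (innerSL ℝ w) x := by
      intro x
      refine ((innerSL ℝ w).hasFDerivAt (x := x)).congr_of_eventuallyEq
        (Filter.Eventually.of_forall fun y => ?_)
      simp only [innerSL_apply_apply]
      exact real_inner_comm _ _
    have hfd : ∀ x : E n, fderiv ℝ (fun x : E n => (inner ℝ x w : ℝ)) x v = inner ℝ w v := by
      intro x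
      rw [(hf x).fderiv]
      simp
    have key := integral_mul_fderiv_eq_neg_fderiv_mul_of_integrable (μ := (volume : Measure (E n)))
      (f := fun x : E n => (inner ℝ x w : ℝ)) (g := gd n) (v := v) (by
        simp_rw [hfd]
        exact hgi.const_mul _) (by
        simp_rw [fderiv_gd]
        have h1 := integrable_mom 2 (fun x : E n => (inner ℝ x w : ℝ) * inner ℝ x v)
          (by fun_prop) (‖w‖ * ‖v‖) (by
            intro x
            rw [abs_mul]
            have h2 := abs_real_inner_le_norm x w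
            have h3 := abs_real_inner_le_norm x v
            calc |(inner ℝ x w : ℝ)| * |(inner ℝ x v : ℝ)| ≤ (‖x‖ * ‖w‖) * (‖x‖ * ‖v‖) :=
                  mul_le_mul h2 h3 (abs_nonneg _) (by positivity)
              _ = ‖w‖ * ‖v‖ * ‖x‖ ^ 2 := by ring)
        refine h1.neg.congr (Filter.Eventually.of_forall fun x => ?_)
        simp only [Pi.neg_apply]
        ring) (by
        have h1 := integrable_mom 1 (fun x : E n => (inner ℝ x w : ℝ))
          (by fun_prop) ‖w‖ (by
            intro x
            have h2 := abs_real_inner_le_norm x w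
            rw [pow_one]
            linarith)
        refine h1.congr (Filter.Eventually.of_forall fun x => ?_)
        simp only
        ring) (fun x _ => (hf x).differentiableAt) (fun x _ => (hasFDerivAt_gd n x).differentiableAt)
    simp_rw [hfd, fderiv_gd] at key
    rw [integral_const_mul, hg, mul_one] at key
    rw [int_gam, real_inner_comm w v]
    have h5 : ∫ x : E n, (inner ℝ x w : ℝ) * -(gd n x * inner ℝ x v) =
        -∫ x : E n, gd n x * ((inner ℝ x v : ℝ) * inner ℝ x w) := by
      rw [← integral_neg]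
      refine integral_congr_ae (Filter.Eventually.of_forall fun x => ?_)
      simp only
      ring
    rw [h5] at key
    linarith
  refine ⟨hprob, fun k => ?_, fun v => ?_, hsec, ?_⟩
  · rw [integrable_gam]
    exact integrable_mom k _ (by fun_prop) 1 (fun x => by
      rw [abs_of_nonneg (by positivity), one_mul])
  · rw [int_gam]
    have h1 := integral_neg_eq_self (fun x : E n => gd n x * (inner ℝ x v : ℝ)) volume
    have h2 : ∀ x : E n, gd n (-x) * (inner ℝ (-x) v : ℝ) = -(gd n x * (inner ℝ x v : ℝ)) := by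
      intro x
      unfold gd
      rw [norm_neg, inner_neg_left]
      ring
    simp_rw [h2] at h1
    rw [integral_neg] at h1
    linarith
  · have h1 : ∀ x : E n, ‖x‖ ^ 2 = ∑ i, (inner ℝ x (EuclideanSpace.single i (1 : ℝ)) : ℝ) *
        inner ℝ x (EuclideanSpace.single i (1 : ℝ)) := by
      intro x
      rw [EuclideanSpace.real_norm_sq_eq]
      refine Finset.sum_congr rfl fun i _ => ?_
      rw [EuclideanSpace.inner_single_right]
      simp
      ring
    simp_rw [h1]
    rw [integral_finsetSum]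
    · simp_rw [hsec]
      simp
    · intro i _
      rw [integrable_gam]
      refine integrable_mom 2 _ (by fun_prop) 1 (fun x => ?_)
      rw [abs_mul, one_mul, pow_two]
      have h2 : |(inner ℝ x (EuclideanSpace.single i (1 : ℝ)) : ℝ)| ≤ ‖x‖ := by
        have := abs_real_inner_le_norm x (EuclideanSpace.single i (1 : ℝ))
        simpa using this
      exact mul_le_mul h2 h2 (abs_nonneg _) (norm_nonneg _)

end Pool.Agent.W933.FVGM
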